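import Pool.Agent.H90.EH.Targets

set_option autoImplicit false

namespace Pool.Agent.H68.EH

open Pool.Agent.H90.EH
open scoped Classical

theorem civ_pt {G : Type} [Group G] {d : ℕ} (ρ : AffAct G d) (g : G) (x : Fin d → ℤ) :
    Lm (ρ.hom g) (pt x 1) = pt ((ρ.lin g).mulVec x + ρ.tr g) 1 := by
  unfold Lm AffAct.hom pt
  rw [Matrix.toLin'_apply]
  ext i
  cases i with
  | inl i =>
    simp only [Matrix.mulVec, dotProduct, Fintype.sum_sum_type, Matrix.map_apply,
      Matrix.fromBlocks_apply₁₁, Matrix.fromBlocks_apply₁₂, Sum.elim_inl, Sum.elim_inr,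
      Matrix.of_apply, Pi.add_apply, Finset.univ_unique, Finset.sum_singleton, Nat.cast_one, mul_one]
    push_cast
    rfl
  | inr i =>
    simp only [Matrix.mulVec, dotProduct, Fintype.sum_sum_type, Matrix.map_apply,
      Matrix.fromBlocks_apply₂₁, Matrix.fromBlocks_apply₂₂, Sum.elim_inl, Sum.elim_inr,
      Matrix.zero_apply, Int.cast_zero, zero_mul, Finset.sum_const_zero, zero_add,
      Finset.univ_unique, Finset.sum_singleton, Nat.cast_one, mul_one, Matrix.one_apply_eq,
      Int.cast_one]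

theorem pf_CIV (h1 : T_RQ) : T_CIV := by
  intro G _ d ρ g S hS
  have key : ∀ a ∈ gen S, Lm (ρ.hom g) a ∈ Cone (gen S) := by
    intro a ha
    unfold gen at ha
    rw [Finset.mem_image] at ha
    obtain ⟨x, hx, rfl⟩ := ha
    rw [civ_pt]
    rw [← h1 d S _ 1 le_rfl]
    have h2 : (fun i => ((x i : ℤ) : ℝ)) ∈ convexHull ℝ ((fun (v : Fin d → ℤ) (i : Fin d) =>
        (v i : ℝ)) '' (S : Set (Fin d → ℤ))) :=
      subset_convexHull ℝ _ ⟨x, hx, rfl⟩
    have h3 := hS _ h2
    have h4 : ρ.act g (fun i => ((x i : ℤ) : ℝ)) =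
        fun i => (((ρ.lin g).mulVec x + ρ.tr g) i : ℝ) / ((1 : ℕ) : ℝ) := by
      unfold AffAct.act
      ext i
      simp only [Matrix.mulVec, dotProduct, Matrix.map_apply, Pi.add_apply, Nat.cast_one, div_one]
      push_cast
      rfl
    rw [h4] at h3
    exact h3
  rintro y ⟨c, hc, rfl⟩
  rw [map_sum]
  have : ∀ s : Finset (Fin d ⊕ Unit → ℚ), s ⊆ gen S →
      ∑ a ∈ s, Lm (ρ.hom g) (c a • a) ∈ Cone (gen S) := by
    intro s
    induction s using Finset.induction_on with
    | empty => intro _; rw [Finset.sum_empty]; exact cone_zero _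
    | insert a s ha ih =>
      intro hs
      rw [Finset.sum_insert ha]
      refine cone_add ?_ (ih fun b hb => hs (Finset.mem_insert_of_mem hb))
      rw [map_smul]
      exact cone_smul (key a (hs (Finset.mem_insert_self a s)))
        (hc a (hs (Finset.mem_insert_self a s)))
  exact this _ (Finset.Subset.refl _)

end Pool.Agent.H68.EH
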