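import Pool.Agent.H90.EH.Targets

set_option autoImplicit false

namespace Pool.Agent.H68.EH

open Pool.Agent.H90.EH

theorem pf_HOM : T_HOM := by
  intro G _ d ρ g h
  have h1 : ρ.tr 1 = 0 := by
    have h2 := ρ.tr_mul 1 1
    rw [mul_one, map_one, Matrix.one_mulVec] at h2
    exact left_eq_add.1 h2
  constructor
  · unfold AffAct.hom
    rw [Matrix.fromBlocks_multiply, Matrix.fromBlocks_inj]
    refine ⟨?_, ?_, ?_, ?_⟩
    · rw [Matrix.mul_zero, add_zero, map_mul]
    · ext i j
      rw [Matrix.of_apply, ρ.tr_mul, Matrix.mul_one, Matrix.add_apply, Matrix.of_apply,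
        Pi.add_apply]
      rfl
    · rw [Matrix.zero_mul, Matrix.mul_zero, add_zero]
    · rw [Matrix.zero_mul, Matrix.mul_one, zero_add]
  · unfold AffAct.hom
    rw [h1, map_one, ← Matrix.fromBlocks_one, Matrix.fromBlocks_inj]
    refine ⟨rfl, ?_, rfl, rfl⟩
    ext i j
    rfl

end Pool.Agent.H68.EH
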