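import Pool.Agent.H90.EH.Targets

set_option autoImplicit false

namespace Pool.Agent.H68.EH

open Pool.Agent.H90.EH
open scoped Classical

theorem num_lc {d : ℕ} (T : Finset (Fin d → ℤ)) : ∀ a ∈ gen T, lc d a = 1 := by
  intro a ha
  unfold gen at ha
  rw [Finset.mem_image] at ha
  obtain ⟨x, -, rfl⟩ := ha
  simp only [lc, LinearMap.proj_apply, pt, Sum.elim_inr, Nat.cast_one]

theorem num_zero {d : ℕ} (T : Finset (Fin d → ℤ)) (x : Fin d ⊕ Unit → ℚ)
    (hx : x ∈ Cone (gen T)) (h0 : lc d x = 0) : x = 0 := by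
  obtain ⟨c, hc, rfl⟩ := hx
  rw [map_sum] at h0
  have h1 : ∑ a ∈ gen T, c a = 0 := by
    rw [← h0]
    refine Finset.sum_congr rfl fun a ha => ?_
    rw [map_smul, num_lc T a ha, smul_eq_mul, mul_one]
  rw [Finset.sum_eq_zero_iff_of_nonneg hc] at h1
  refine Finset.sum_eq_zero fun a ha => ?_
  rw [h1 a ha, zero_smul]

theorem pf_NUM (h1 : T_RQ) (h2 : T_ACT) : T_NUM := by
  intro G _ d ρ g S T m hT
  unfold AffAct.num cnt
  by_cases hm : m = 0
  · subst hm
    rw [if_pos rfl]
    have : {x : Fin d ⊕ Unit → ℚ | x ∈ Cone (gen T) ∧ x ∈ ZL (Fin d ⊕ Unit) ∧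
        lc d x = ((0 : ℕ) : ℚ)} = {0} := by
      ext x
      rw [Set.mem_singleton_iff]
      constructor
      · rintro ⟨hx, -, h⟩
        rw [Nat.cast_zero] at h
        exact num_zero T x hx h
      · rintro rfl
        exact ⟨cone_zero _, (ZL (Fin d ⊕ Unit)).zero_mem, by rw [map_zero, Nat.cast_zero]⟩
    rw [this, Set.ncard_singleton]
  · rw [if_neg hm]
    have hm1 : 1 ≤ m := Nat.one_le_iff_ne_zero.2 hm
    have hinj : Function.Injective (fun x : Fin d → ℤ => pt x m) := by
      intro x y hxy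
      ext i
      have := congrFun hxy (Sum.inl i)
      simp only [pt, Sum.elim_inl] at this
      exact_mod_cast this
    have himg : {x : Fin d ⊕ Unit → ℚ | x ∈ Cone (gen T) ∧ x ∈ ZL (Fin d ⊕ Unit) ∧
        lc d x = (m : ℚ)} = (fun x : Fin d → ℤ => pt x m) ''
        {x : Fin d → ℤ | (fun i => (x i : ℝ) / (m : ℝ)) ∈ convexHull ℝ
          ((fun (v : Fin d → ℤ) (i : Fin d) => (v i : ℝ)) '' (S : Set (Fin d → ℤ))) ∧
          ρ.act g (fun i => (x i : ℝ) / (m : ℝ)) = fun i => (x i : ℝ) / (m : ℝ)} := by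
      ext y
      constructor
      · rintro ⟨hy, hz, hl⟩
        choose z hz' using hz
        have hyz : y = pt (fun i => z (Sum.inl i)) m := by
          ext i
          cases i with
          | inl i => simp only [pt, Sum.elim_inl]; exact hz' _
          | inr i =>
            simp only [pt, Sum.elim_inr]
            rw [← hl]
            simp only [lc, LinearMap.proj_apply]
        refine ⟨fun i => z (Sum.inl i), ?_, hyz.symm⟩
        rw [hyz] at hy
        have h3 := (hT _).1 hy
        exact ⟨(h1 d S _ m hm1).2 h3.1, (h2 G d ρ g _ m hm1).2 h3.2⟩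
      · rintro ⟨x, ⟨hx1, hx2⟩, rfl⟩
        refine ⟨(hT _).2 ⟨(h1 d S x m hm1).1 hx1, (h2 G d ρ g x m hm1).1 hx2⟩, ?_, ?_⟩
        · intro i
          cases i with
          | inl i => exact ⟨x i, rfl⟩
          | inr i => exact ⟨m, by simp only [pt, Sum.elim_inr]; push_cast; rfl⟩
        · simp only [lc, LinearMap.proj_apply, pt, Sum.elim_inr]
    rw [himg, Set.ncard_image_of_injective _ hinj]
    exact Nat.card_coe_set_eq _

end Pool.Agent.H68.EH
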